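import Pool.Agent.T6.H12.X.Tower

/-!
# Models of the top fields of towers
-/

set_option autoImplicit false
set_option linter.unusedSectionVars false

universe u

open Pool.Agent.TH214.SD Pool.Agent.TH188.VT Pool.Agent.W558 Pool.Agent.T6.H12.X

namespace Pool.Agent.T6.H12.Y

variable {k K : Type u} [Field k] [Field K] [Algebra k K] {m n d : ℕ}
  {E : Fin m → IntermediateField k K}

/-- Constant factors. -/
lemma fn_smul {T I : Type} [Fintype I] {M : LM (⊥ : Subalgebra k K) ⊤ T I} {S : Type}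
    {v : S → K} {Γ : S → I → ℤ} (h : Fn M v Γ) (c : S → k) (hc : ∀ b, c b ≠ 0) :
    Fn M (fun b => algebraMap k K (c b) * v b) Γ := by
  intro b t
  obtain ⟨w, h0, h1, h2, h3⟩ := h b t
  refine ⟨algebraMap k K (c b) * w, mul_ne_zero ((map_ne_zero _).2 (hc b)) h0,
    mul_mem ((M.A t).algebraMap_mem _) h1, ?_, ?_⟩
  · rw [mul_inv, ← map_inv₀]
    exact mul_mem ((M.A t).algebraMap_mem _) h2
  · change algebraMap k K (c b) * v b = _
    rw [h3, mul_assoc]

/-- The valuative criterion for the existence of models. -/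
theorem models_of_bound {p : ℕ} [Fact p.Prime] [PerfectField k] [CharP k p]
    (hE : AreIndependentSurfaceFields E) {y : Fin n → K} (hy0 : ∀ j, y j ≠ 0)
    (hgen : IntermediateField.adjoin k (Set.range y ∪ ⋃ i, (E i : Set K)) = ⊤)
    (htr : Algebra.trdeg (IntermediateField.adjoin k (⋃ i, (E i : Set K))) K = (d : Cardinal.{u}))
    (H : ∀ (Γ κ : Type u) [AddCommGroup Γ] [LinearOrder Γ] [IsOrderedAddMonoid Γ] [Field κ]
      [IsAlgClosed κ] (σ : k →+* κ) (l : K → Γ) (z : K → κ) (w : Fin n → Γ) (ζ : Fin n → κ)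
      (D : Fin n → Fin (d + 1) → κ), Triv (PrK E) l z σ → IniTop (PrK E) y l z w ζ D →
      Module.finrank κ (Submodule.span κ (Set.range D)) ≤ d)
    (S : Type) [Finite S] (v : S → K)
    (hv : ∀ b, ∃ c : k, c ≠ 0 ∧ IsProduct E y (algebraMap k K c * v b)) :
    ∃ (T I : Type) (_ : Finite T) (_ : Fintype I) (M : LM (⊥ : Subalgebra k K) ⊤ T I)
      (Γ : S → I → ℤ), Fn M v Γ ∧ Frc M := by
  classical
  let F := IntermediateField.adjoin k (⋃ i, (E i : Set K))
  have hgenF : IntermediateField.adjoin F (Set.range y) = ⊤ := by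
    rw [eq_top_iff]
    intro b _
    have h1 : IntermediateField.adjoin k (Set.range y ∪ ⋃ i, (E i : Set K)) ≤
        (IntermediateField.adjoin F (Set.range y)).restrictScalars k := by
      rw [IntermediateField.adjoin_le_iff]
      rintro c (hc | hc)
      · exact IntermediateField.subset_adjoin F _ hc
      · have h2 : c ∈ F := IntermediateField.subset_adjoin k _ hc
        exact (IntermediateField.adjoin F (Set.range y)).algebraMap_mem ⟨c, h2⟩
    rw [hgen] at h1
    exact h1 (show b ∈ (⊤ : IntermediateField k K) from trivial)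
  obtain ⟨hdn, ρ, hρ⟩ := exists_rho (d := d) y hgenF htr
  obtain ⟨h, u, q, G, hu, hG1, hG2⟩ := X.exists_schon (k := k) (c := n - d) (d := d) (by omega)
    (PrK E) (Prods E) (fun a ha => prods_ne ha) (fun a ha b hb => prk_mul ha hb)
    (fun c hc a ha => prk_smul hc ha) (fun a ha => ha) y H
  have hK : IsInseparableCover (r := 0) (s := 0) (o := 0) E p (n - d) u y G ρ
      (fun t => Fin.elim0 t) (fun t => Fin.elim0 t) (fun t => Fin.elim0 t) := by
    refine ⟨⟨hE, ?_, hy0, hG1, hG2, by omega, hρ⟩, ?_, ?_, ?_, ?_⟩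
    · intro a
      refine ⟨prods_ne (hu a), ?_⟩
      obtain ⟨v, -, hv⟩ := hu a
      exact ⟨v, hv⟩
    · intro l z hz hv t
      exact Fin.elim0 t
    · intro i t
      exact Fin.elim0 t
    · intro j
      exact Fin.elim0 j
    · rw [← hgen]
      congr 1
      rw [Set.range_eq_empty, Set.empty_union]
  choose c hc hcv using hv
  obtain ⟨T, I, hT, hI, M, Γ, hF, hR⟩ := insep_models hK S _ hcv
  refine ⟨T, I, hT, hI, M, Γ, ?_, hR⟩
  have h1 := fn_smul hF (fun b => (c b)⁻¹) fun b => inv_ne_zero (hc b)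
  have h2 : (fun b => algebraMap k K (c b)⁻¹ * (algebraMap k K (c b) * v b)) = v := by
    funext b
    rw [← mul_assoc, ← map_mul, inv_mul_cancel₀ (hc b), map_one, one_mul]
  rwa [h2] at h1

/-- Models of the top fields of Frobenius towers. -/
theorem models_of_tower (p : ℕ) [Fact p.Prime] [IsAlgClosed k] [CharP k p]
    (hE : AreIndependentSurfaceFields E) {G : Subgroup Kˣ} (hG : IsFrobeniusTower p E ⊤ G)
    (S0 : Finset K) (hS0 : IntermediateField.adjoin k (S0 : Set K) = ⊤)
    (S : Type) [Finite S] (v : S → K) (hv : ∀ b, ∃ u ∈ G, (u : K) = v b) :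
    ∃ (T I : Type) (_ : Finite T) (_ : Fintype I) (M : LM (⊥ : Subalgebra k K) ⊤ T I)
      (Γ : S → I → ℤ), Fn M v Γ ∧ Frc M := by
  classical
  obtain ⟨h1, h2, h3, ⟨d, h4, h5⟩, -⟩ := X.inv_of_tower hG
  have hfin : Fintype S := Fintype.ofFinite S
  have hfinG : ∀ b : K, ∃ T : Finset Kˣ, (∀ u ∈ T, u ∈ G) ∧
      b ∈ IntermediateField.adjoin k (Units.val '' (T : Set Kˣ)) := by
    intro b
    have h6 : b ∈ IntermediateField.adjoin k (Units.val '' (G : Set Kˣ)) := h3 trivial
    obtain ⟨T0, hT0, hb⟩ := IntermediateField.exists_finset_of_mem_adjoin h6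
    have h7 : ∀ c ∈ T0, ∃ u ∈ G, (u : K) = c := fun c hc => hT0 (Finset.mem_coe.2 hc)
    choose! uu huu1 huu2 using h7
    refine ⟨T0.image uu, ?_, ?_⟩
    · intro u hu
      obtain ⟨c, hc, rfl⟩ := Finset.mem_image.1 hu
      exact huu1 c hc
    · refine IntermediateField.adjoin.mono k _ _ ?_ hb
      intro c hc
      exact ⟨uu c, Finset.mem_coe.2 (Finset.mem_image_of_mem _ hc), huu2 c hc⟩
  choose Tb hTb1 hTb2 using hfinG
  choose us hus1 hus2 using hv
  obtain ⟨n, y, hy0, hy, hyT, hyB⟩ := h4 ((Finset.univ.image us) ∪ S0.biUnion Tb) (by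
    intro u hu
    rcases Finset.mem_union.1 hu with h | h
    · obtain ⟨b, -, rfl⟩ := Finset.mem_image.1 h
      exact hus1 b
    · obtain ⟨b, -, hb⟩ := Finset.mem_biUnion.1 h
      exact hTb1 b u hb)
  have htr : Algebra.trdeg (IntermediateField.adjoin k (⋃ i, (E i : Set K))) K =
      (d : Cardinal.{u}) := by
    have h6 : Algebra.IsAlgebraic (⊤ : IntermediateField k K) K :=
      ⟨fun b => isAlgebraic_algebraMap (⟨b, trivial⟩ : (⊤ : IntermediateField k K))⟩
    have h7 : Algebra.trdeg (⊤ : IntermediateField k K) K = 0 := _root_.trdeg_eq_zero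
    rw [h5, h7, add_zero]
  have hperf : PerfectField k := inferInstance
  refine models_of_bound (p := p) (d := d) hE hy0 ?_ htr ?_ S v ?_
  · rw [eq_top_iff, ← hS0, IntermediateField.adjoin_le_iff]
    intro b hb
    have h6 : IntermediateField.adjoin k (Units.val '' (Tb b : Set Kˣ)) ≤
        IntermediateField.adjoin k (Set.range y ∪ ⋃ i, (E i : Set K)) := by
      rw [IntermediateField.adjoin_le_iff]
      rintro _ ⟨u, hu, rfl⟩
      obtain ⟨a, ⟨c, -, a', ⟨v, hv, rfl⟩, rfl⟩, e, he⟩ := hyT u (Finset.mem_union_right _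
        (Finset.mem_biUnion.2 ⟨b, Finset.mem_coe.1 hb, Finset.mem_coe.1 hu⟩))
      rw [he]
      refine mul_mem (mul_mem (IntermediateField.algebraMap_mem _ c)
        (prod_mem fun i _ => IntermediateField.subset_adjoin k _
        (Or.inr (Set.mem_iUnion.2 ⟨i, (v i).2⟩)))) ?_
      unfold mon
      refine prod_mem fun j _ => ?_
      have h7 : y j ∈ IntermediateField.adjoin k (Set.range y ∪ ⋃ i, (E i : Set K)) :=
        IntermediateField.subset_adjoin k _ (Or.inl ⟨j, rfl⟩)
      exact zpow_mem h7 _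
    exact h6 (hTb2 b)
  · intro Γ κ _ _ _ _ _ σ l z w ζ D hσ h
    exact hyB Γ κ _ σ l z w ζ D hσ h
  · intro b
    rw [← hus2 b]
    obtain ⟨a, ⟨c, hc, a', ⟨v, hv, rfl⟩, rfl⟩, e, he⟩ := hyT _ (Finset.mem_union_left _
      (Finset.mem_image_of_mem us (Finset.mem_univ b)))
    refine ⟨c⁻¹, inv_ne_zero hc, v, e, hv, ?_⟩
    rw [he, ← mul_assoc, ← mul_assoc, map_inv₀, inv_mul_cancel₀ ((_root_.map_ne_zero _).2 hc),
      one_mul]
    rfl

end Pool.Agent.T6.H12.Y
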