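import Pool.Agent.T6.H12.Covers
import Pool.Agent.T6.H12.X.Tower
import Pool.Agent.T6.H12.Y.Mod

/-!
# Models of covers of Frobenius towers
-/

set_option autoImplicit false
set_option linter.unusedSectionVars false

universe u

open Polynomial Pool.Agent.TH214.SD Pool.Agent.TH188.VT Pool.Agent.W558 Pool.Agent.T6.H12.X

namespace Pool.Agent.T6.H12.Y

variable {k K : Type u} [Field k] [Field K] [Algebra k K] {m n d : ℕ}
  {E : Fin m → IntermediateField k K}

/-- Schön equations from the bound for the derivatives. -/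
theorem exists_base (hE : AreIndependentSurfaceFields E) {y : Fin n → K} (hy0 : ∀ j, y j ≠ 0)
    (halg : Algebra.IsAlgebraic (IntermediateField.adjoin
      (IntermediateField.adjoin k (⋃ i, (E i : Set K))) (Set.range y)) K)
    (htr : Algebra.trdeg (IntermediateField.adjoin k (⋃ i, (E i : Set K))) K = (d : Cardinal.{u}))
    (H : X.Bounded E y d) :
    ∃ (h : ℕ) (u : Fin h → K) (q : ℕ) (G : Fin q → (Fin h ⊕ Fin n → ℤ) →₀ k) (ρ : Fin d → Fin n),
      IsSchonBase E (n - d) u y G ρ := by
  classical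
  obtain ⟨hdn, ρ, hρ⟩ := exists_rho' (d := d) y halg htr
  obtain ⟨h, u, q, G, hu, hG1, hG2⟩ := X.exists_schon (k := k) (c := n - d) (d := d) (by omega)
    (PrK E) (Prods E) (fun a ha => prods_ne ha) (fun a ha b hb => prk_mul ha hb)
    (fun c hc a ha => prk_smul hc ha) (fun a ha => ha) y
    (fun Γ κ _ _ _ _ _ σ l z w ζ D hσ h => H Γ κ _ σ l z w ζ D hσ h)
  refine ⟨h, u, q, G, ρ, hE, ?_, hy0, hG1, hG2, by omega, hρ⟩
  intro a
  refine ⟨prods_ne (hu a), ?_⟩
  obtain ⟨v, -, hv⟩ := hu a
  exact ⟨v, hv⟩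

/-- A good family in a tower, for a field which is a finitely generated algebraic extension of the
field of the tower. -/
theorem exists_family [IsAlgClosed k] {p : ℕ} [Fact p.Prime] [CharP k p]
    (hE : AreIndependentSurfaceFields E) {F : IntermediateField k K} {G : Subgroup Kˣ}
    (hG : IsFrobeniusTower p E F G) {r : ℕ} (w : Fin r → K)
    (hw : ∀ j, IsAlgebraic (IntermediateField.adjoin k (⋃ i, (E i : Set K))) (w j))
    (hgen : IntermediateField.adjoin F (Set.range w) = ⊤)
    (hfg : ∃ S0 : Finset K, IntermediateField.adjoin k (S0 : Set K) = ⊤)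
    (T : Finset Kˣ) (hT : ∀ u ∈ T, u ∈ G) :
    ∃ (n : ℕ) (y : Fin n → K) (hy : ∀ j, y j ≠ 0) (d : ℕ), (∀ u ∈ T, u ∈ X.monoGrp E y hy) ∧
      IntermediateField.adjoin k (Set.range w ∪ (Set.range y ∪ ⋃ i, (E i : Set K))) = ⊤ ∧
      ∃ (h : ℕ) (u : Fin h → K) (q : ℕ) (Q : Fin q → (Fin h ⊕ Fin n → ℤ) →₀ k)
        (ρ : Fin d → Fin n), IsSchonBase E (n - d) u y Q ρ := by
  classical
  obtain ⟨h1, h2, h3, ⟨d, h4, h5⟩, -⟩ := X.inv_of_tower hG
  obtain ⟨S0, hS0⟩ := hfg
  -- the field is generated by the `w j` and the group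
  have hgen' : IntermediateField.adjoin k (Set.range w ∪ Units.val '' (G : Set Kˣ)) = ⊤ := by
    rw [eq_top_iff]
    have h6 : (IntermediateField.adjoin F (Set.range w)).restrictScalars k ≤
        IntermediateField.adjoin k (Set.range w ∪ Units.val '' (G : Set Kˣ)) := by
      refine adjoin_le_aux (h3.trans (IntermediateField.adjoin.mono k _ _
        Set.subset_union_right)) fun b hb => ?_
      exact IntermediateField.subset_adjoin k _ (Or.inl hb)
    intro b _
    refine h6 ?_
    change b ∈ IntermediateField.adjoin F (Set.range w)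
    rw [hgen]
    trivial
  have hfinG : ∀ b : K, ∃ T : Finset Kˣ, (∀ u ∈ T, u ∈ G) ∧
      b ∈ IntermediateField.adjoin k (Set.range w ∪ Units.val '' (T : Set Kˣ)) := by
    intro b
    have h6 : b ∈ IntermediateField.adjoin k (Set.range w ∪ Units.val '' (G : Set Kˣ)) := by
      rw [hgen']
      trivial
    obtain ⟨T0, hT0, hb⟩ := IntermediateField.exists_finset_of_mem_adjoin h6
    have h7 : ∀ c : K, ∃ u ∈ G, c ∈ T0 → c ∉ Set.range w → (u : K) = c := by
      intro c
      by_cases hc : c ∈ T0 ∧ c ∉ Set.range w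
      · rcases hT0 (Finset.mem_coe.2 hc.1) with h8 | ⟨u, hu, h8⟩
        · exact absurd h8 hc.2
        · exact ⟨u, hu, fun _ _ => h8⟩
      · exact ⟨1, one_mem G, fun h8 h9 => absurd ⟨h8, h9⟩ hc⟩
    choose uu huu1 huu2 using h7
    refine ⟨T0.image uu, ?_, ?_⟩
    · intro u hu
      obtain ⟨c, hc, rfl⟩ := Finset.mem_image.1 hu
      exact huu1 c
    · refine IntermediateField.adjoin.mono k _ _ ?_ hb
      intro c hc
      by_cases hcw : c ∈ Set.range w
      · exact Or.inl hcw
      · exact Or.inr ⟨uu c, Finset.mem_coe.2 (Finset.mem_image_of_mem _ hc),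
          huu2 c (Finset.mem_coe.1 hc) hcw⟩
  choose Tb hTb1 hTb2 using hfinG
  obtain ⟨n, y, hy0, hy, hyT, hyB⟩ := h4 (T ∪ S0.biUnion Tb) (by
    intro u hu
    rcases Finset.mem_union.1 hu with h | h
    · exact hT u h
    · obtain ⟨b, -, hb⟩ := Finset.mem_biUnion.1 h
      exact hTb1 b u hb)
  have hwF : ∀ j, IsAlgebraic F (w j) := by
    intro j
    by_contra hcon
    exact transcendental_of_le h1 hcon (hw j)
  have hKF : Algebra.IsAlgebraic F K := by
    have h6 : IntermediateField.adjoin F (Set.range w) ≤ algebraicClosure F K := by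
      rw [IntermediateField.adjoin_le_iff]
      rintro _ ⟨j, rfl⟩
      exact mem_algebraicClosure_iff.2 (hwF j)
    refine ⟨fun b => mem_algebraicClosure_iff.1 (h6 ?_)⟩
    rw [hgen]
    trivial
  have htr : Algebra.trdeg (IntermediateField.adjoin k (⋃ i, (E i : Set K))) K =
      (d : Cardinal.{u}) := by
    have h7 : Algebra.trdeg F K = 0 := _root_.trdeg_eq_zero
    rw [h5, h7, add_zero]
  have hgenk : IntermediateField.adjoin k (Set.range w ∪ (Set.range y ∪ ⋃ i, (E i : Set K))) =
      ⊤ := by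
    rw [eq_top_iff, ← hS0, IntermediateField.adjoin_le_iff]
    intro b hb
    have h6 : IntermediateField.adjoin k (Set.range w ∪ Units.val '' (Tb b : Set Kˣ)) ≤
        IntermediateField.adjoin k (Set.range w ∪ (Set.range y ∪ ⋃ i, (E i : Set K))) := by
      rw [IntermediateField.adjoin_le_iff]
      rintro c (hc | ⟨u, hu, rfl⟩)
      · exact IntermediateField.subset_adjoin k _ (Or.inl hc)
      · obtain ⟨a, ⟨c, -, a', ⟨v, hv, rfl⟩, rfl⟩, e, he⟩ := hyT u (Finset.mem_union_right _
          (Finset.mem_biUnion.2 ⟨b, Finset.mem_coe.1 hb, Finset.mem_coe.1 hu⟩))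
        rw [he]
        refine mul_mem (mul_mem (IntermediateField.algebraMap_mem _ c)
          (prod_mem fun i _ => IntermediateField.subset_adjoin k _
          (Or.inr (Or.inr (Set.mem_iUnion.2 ⟨i, (v i).2⟩))))) ?_
        unfold mon
        refine prod_mem fun j _ => ?_
        have h7 : y j ∈ IntermediateField.adjoin k
            (Set.range w ∪ (Set.range y ∪ ⋃ i, (E i : Set K))) :=
          IntermediateField.subset_adjoin k _ (Or.inr (Or.inl ⟨j, rfl⟩))
        exact zpow_mem h7 _
    exact h6 (hTb2 b)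
  have halg : Algebra.IsAlgebraic (IntermediateField.adjoin
      (IntermediateField.adjoin k (⋃ i, (E i : Set K))) (Set.range y)) K := by
    let F0 := IntermediateField.adjoin k (⋃ i, (E i : Set K))
    let L := IntermediateField.adjoin F0 (Set.range y)
    let M : IntermediateField L K := algebraicClosure L K
    have h6 : IntermediateField.adjoin k (Set.range w ∪ (Set.range y ∪ ⋃ i, (E i : Set K))) ≤
        (M.restrictScalars F0).restrictScalars k := by
      rw [IntermediateField.adjoin_le_iff]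
      rintro c (⟨j, rfl⟩ | hc | hc)
      · exact mem_algebraicClosure_iff.2 ((hw j).extendScalars
          (algebraMap F0 L).injective)
      · have h7 : c ∈ L := IntermediateField.subset_adjoin F0 _ hc
        exact M.algebraMap_mem ⟨c, h7⟩
      · have h7 : c ∈ F0 := IntermediateField.subset_adjoin k _ hc
        exact (M.restrictScalars F0).algebraMap_mem ⟨c, h7⟩
    refine ⟨fun b => mem_algebraicClosure_iff.1 ?_⟩
    have h8 : b ∈ IntermediateField.adjoin k
        (Set.range w ∪ (Set.range y ∪ ⋃ i, (E i : Set K))) := by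
      rw [hgenk]
      trivial
    exact h6 h8
  obtain ⟨h, u, q, Q, ρ, hb⟩ := exists_base (d := d) hE hy0 halg htr hyB
  exact ⟨n, y, hy0, d, fun u hu => hyT u (Finset.mem_union_left _ hu), hgenk, h, u, q, Q, ρ, hb⟩

/-- Elements of the group of monomials. -/
lemma product_of_mono {y : Fin n → K} {hy : ∀ j, y j ≠ 0} {u : Kˣ}
    (hu : u ∈ X.monoGrp E y hy) :
    ∃ c : k, c ≠ 0 ∧ IsProduct E y (algebraMap k K c * (u : K)) := by
  obtain ⟨a, ⟨c, hc, a', ⟨v, hv, rfl⟩, rfl⟩, e, he⟩ := hu
  refine ⟨c⁻¹, inv_ne_zero hc, v, e, hv, ?_⟩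
  rw [he, ← mul_assoc, ← mul_assoc, map_inv₀, inv_mul_cancel₀ ((_root_.map_ne_zero _).2 hc),
    one_mul]
  rfl

/-- Models from models for products. -/
lemma models_smul {y : Fin n → K}
    (hm : ∀ (S : Type) [Finite S] (v : S → K), (∀ b, IsProduct E y (v b)) →
      ∃ (T I : Type) (_ : Finite T) (_ : Fintype I) (M : LM (⊥ : Subalgebra k K) ⊤ T I)
      (Γ : S → I → ℤ), Fn M v Γ ∧ Frc M)
    (S : Type) [Finite S] (v : S → K)
    (hv : ∀ b, ∃ c : k, c ≠ 0 ∧ IsProduct E y (algebraMap k K c * v b)) :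
    ∃ (T I : Type) (_ : Finite T) (_ : Fintype I) (M : LM (⊥ : Subalgebra k K) ⊤ T I)
      (Γ : S → I → ℤ), Fn M v Γ ∧ Frc M := by
  choose c hc hcv using hv
  obtain ⟨T, I, hT, hI, M, Γ, hF, hR⟩ := hm S _ hcv
  refine ⟨T, I, hT, hI, M, Γ, ?_, hR⟩
  have h1 := fn_smul hF (fun b => (c b)⁻¹) fun b => inv_ne_zero (hc b)
  have h2 : (fun b => algebraMap k K (c b)⁻¹ * (algebraMap k K (c b) * v b)) = v := by
    funext b
    rw [← mul_assoc, ← map_mul, inv_mul_cancel₀ (hc b), map_one, one_mul]
  rwa [h2] at h1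

/-- Models of the Artin-Schreier covers of Frobenius towers. -/
theorem models_wild (p : ℕ) [Fact p.Prime] [IsAlgClosed k] [CharP k p]
    (hE : AreIndependentSurfaceFields E) {F : IntermediateField k K} {G : Subgroup Kˣ}
    (hG : IsFrobeniusTower p E F G) {r : ℕ} (w : Fin r → K) (g : ∀ i, E i)
    (hw : ∀ j, w j ^ p - w j ∈ AddSubgroup.closure (Set.range fun i => (g i : K)))
    (hgen : IntermediateField.adjoin F (Set.range w) = ⊤)
    (hfg : ∃ S0 : Finset K, IntermediateField.adjoin k (S0 : Set K) = ⊤)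
    (S : Type) [Finite S] (v : S → K) (hv : ∀ b, ∃ u ∈ G, (u : K) = v b) :
    ∃ (T I : Type) (_ : Finite T) (_ : Fintype I) (M : LM (⊥ : Subalgebra k K) ⊤ T I)
      (Γ : S → I → ℤ), Fn M v Γ ∧ Frc M := by
  classical
  have hp : p.Prime := Fact.out
  have hperf : PerfectField k := inferInstance
  have hfin : Fintype S := Fintype.ofFinite S
  choose us hus1 hus2 using hv
  have hwa : ∀ j, IsAlgebraic (IntermediateField.adjoin k (⋃ i, (E i : Set K))) (w j) := by
    intro j
    have h1 : w j ^ p - w j ∈ IntermediateField.adjoin k (⋃ i, (E i : Set K)) := by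
      have h2 : AddSubgroup.closure (Set.range fun i => (g i : K)) ≤
          (IntermediateField.adjoin k (⋃ i, (E i : Set K))).toSubfield.toAddSubgroup := by
        rw [AddSubgroup.closure_le]
        rintro _ ⟨i, rfl⟩
        exact IntermediateField.subset_adjoin k _ (Set.mem_iUnion.2 ⟨i, (g i).2⟩)
      exact h2 (hw j)
    refine ⟨X ^ p - X - C ⟨_, h1⟩, ?_, ?_⟩
    · intro h0
      have h2 := congrArg (fun P => P.coeff p) h0
      simp only [coeff_sub, coeff_X_pow, if_true, coeff_zero] at h2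
      rw [coeff_X_of_ne_one hp.one_lt.ne', coeff_C_of_ne_zero hp.ne_zero] at h2
      simp at h2
    · rw [map_sub, map_sub, map_pow, aeval_X, aeval_C]
      exact sub_self _
  obtain ⟨n, y, hy0, d, hyT, hgenk, h, u, q, Q, ρ, hb⟩ := exists_family (p := p) hE hG w hwa hgen
    hfg (Finset.univ.image us) (by
    intro u hu
    obtain ⟨b, -, rfl⟩ := Finset.mem_image.1 hu
    exact hus1 b)
  have hK : IsWildCover (s := 0) E p (n - d) u y Q ρ g (fun t => Fin.elim0 t) ∅ w := by
    refine ⟨hb, ?_, ?_, ?_, hgenk⟩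
    · intro l z hz hv t
      exact Fin.elim0 t
    · intro t
      exact Fin.elim0 t
    · intro j
      exact AddSubgroup.closure_mono Set.subset_union_left (hw j)
  refine models_smul (E := E) (fun S _ v hv => wild_models hK S v hv) S v ?_
  intro b
  rw [← hus2 b]
  exact product_of_mono (hyT _ (Finset.mem_image_of_mem us (Finset.mem_univ b)))

/-- Models of the purely inseparable covers of Frobenius towers. -/
theorem models_insep (p : ℕ) [Fact p.Prime] [IsAlgClosed k] [CharP k p]
    (hE : AreIndependentSurfaceFields E) {F : IntermediateField k K} {G : Subgroup Kˣ}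
    (hG : IsFrobeniusTower p E F G) {r o : ℕ} (w : Fin r → K) (g : Fin o → ∀ i, E i)
    (hg : ∀ i t t', t ≠ t' → (∃ b, b ^ p = g t i) ∨ ∃ b, b ^ p = g t' i)
    (hw : ∀ j, w j ^ p ∈ Submodule.span k (Set.range fun t => ∏ i, (g t i : K)))
    (hgen : IntermediateField.adjoin F (Set.range w) = ⊤)
    (hfg : ∃ S0 : Finset K, IntermediateField.adjoin k (S0 : Set K) = ⊤)
    (S : Type) [Finite S] (v : S → K) (hv : ∀ b, ∃ u ∈ G, (u : K) = v b) :
    ∃ (T I : Type) (_ : Finite T) (_ : Fintype I) (M : LM (⊥ : Subalgebra k K) ⊤ T I)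
      (Γ : S → I → ℤ), Fn M v Γ ∧ Frc M := by
  classical
  have hp : p.Prime := Fact.out
  have hperf : PerfectField k := inferInstance
  have hfin : Fintype S := Fintype.ofFinite S
  choose us hus1 hus2 using hv
  have hwa : ∀ j, IsAlgebraic (IntermediateField.adjoin k (⋃ i, (E i : Set K))) (w j) := by
    intro j
    have h1 : w j ^ p ∈ IntermediateField.adjoin k (⋃ i, (E i : Set K)) := by
      have h2 : Submodule.span k (Set.range fun t => ∏ i, (g t i : K)) ≤
          Subalgebra.toSubmodule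
            (IntermediateField.adjoin k (⋃ i, (E i : Set K))).toSubalgebra := by
        rw [Submodule.span_le]
        rintro _ ⟨t, rfl⟩
        have h3 : ∏ i, (g t i : K) ∈ IntermediateField.adjoin k (⋃ i, (E i : Set K)) :=
          prod_mem fun i _ =>
            IntermediateField.subset_adjoin k _ (Set.mem_iUnion.2 ⟨i, (g t i).2⟩)
        exact h3
      exact h2 (hw j)
    refine ⟨X ^ p - C ⟨_, h1⟩, ?_, ?_⟩
    · exact X_pow_sub_C_ne_zero hp.pos _
    · rw [map_sub, map_pow, aeval_X, aeval_C]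
      exact sub_self _
  obtain ⟨n, y, hy0, d, hyT, hgenk, h, u, q, Q, ρ, hb⟩ := exists_family (p := p) hE hG w hwa hgen
    hfg (Finset.univ.image us) (by
    intro u hu
    obtain ⟨b, -, rfl⟩ := Finset.mem_image.1 hu
    exact hus1 b)
  have hK : IsInseparableCover (s := 0) E p (n - d) u y Q ρ g (fun t => Fin.elim0 t) w := by
    refine ⟨hb, ?_, hg, ?_, hgenk⟩
    · intro l z hz hv t
      exact Fin.elim0 t
    · intro j
      exact Submodule.span_mono Set.subset_union_left (hw j)
  refine models_smul (E := E) (fun S _ v hv => insep_models hK S v hv) S v ?_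
  intro b
  rw [← hus2 b]
  exact product_of_mono (hyT _ (Finset.mem_image_of_mem us (Finset.mem_univ b)))

end Pool.Agent.T6.H12.Y
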